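import Pool.Agent.U197.FPure.Zero
import Pool.Agent.H379R3.Reg

/-! Flatness, in equational form, of the map `a ↦ a ^ q` of a regular local ring
(when this map is a ring homomorphism). -/

set_option autoImplicit false

namespace Pool.Agent.U197.FPure

universe u v u' v'

open IsLocalRing

section

variable {A : Type u} {B : Type v} [CommRing A] [CommRing B] (φ : A →+* B)

theorem Fl.of_isField (hA : IsField A) : Fl φ ⊥ ⊥ := by
  classical
  apply Fl.of_relSpan
  intro ι _ a b hab
  by_cases h0 : ∀ i, a i = 0
  · have h1 : b = fun i => ∑ k, φ (if i = k then 1 else 0) * b k := by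
      funext i
      rw [Finset.sum_eq_single i]
      · simp
      · intro k _ hk
        simp [hk.symm]
      · simp
    rw [h1]
    exact sum_mem_relSpan φ a (fun k i => if i = k then 1 else 0) b fun k => by simp [h0]
  · push Not at h0
    obtain ⟨i0, hi0⟩ := h0
    obtain ⟨t, ht⟩ := hA.mul_inv_cancel hi0
    have h1 : b = fun i => ∑ k, φ ((if i = k then 1 else 0) - (if i = i0 then a k * t else 0)) *
        b k := by
      funext i
      simp only [map_sub, sub_mul, Finset.sum_sub_distrib]
      have h2 : ∑ k, φ (if i = k then 1 else 0) * b k = b i := by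
        rw [Finset.sum_eq_single i]
        · simp
        · intro k _ hk
          simp [hk.symm]
        · simp
      rw [h2]
      have h3 : ∑ k, φ (if i = i0 then a k * t else 0) * b k = 0 := by
        by_cases hi : i = i0
        · simp only [hi, if_true, map_mul]
          have : ∑ k, φ (a k) * φ t * b k = φ t * ∑ k, φ (a k) * b k := by
            rw [Finset.mul_sum]
            exact Finset.sum_congr rfl fun k _ => by ring
          rw [this, hab, mul_zero]
        · simp [hi]
      rw [h3, sub_zero]
    rw [h1]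
    refine sum_mem_relSpan φ a
      (fun k i => (if i = k then 1 else 0) - (if i = i0 then a k * t else 0)) b fun k => ?_
    simp only [mul_sub, Finset.sum_sub_distrib, mul_ite, mul_one, mul_zero]
    rw [Finset.sum_ite_eq' , Finset.sum_ite_eq']
    simp only [Finset.mem_univ, if_true]
    have : a i0 * (a k * t) = a k * (a i0 * t) := by ring
    rw [this, ht, mul_one, sub_self]

theorem Fl.of_quotient {A' : Type u'} {B' : Type v'} [CommRing A'] [CommRing B']
    (φ' : A' →+* B') (π : A →+* A') (π' : B →+* B') (hπ : Function.Surjective π)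
    (hπ' : Function.Surjective π') (hcomm : ∀ a, φ' (π a) = π' (φ a)) (h : Fl φ' ⊥ ⊥) :
    Fl φ (RingHom.ker π) (RingHom.ker π') := by
  intro ι _ a b hab
  obtain ⟨κ, hκ, c, y, hc, hy⟩ := h ι (fun i => π (a i)) (fun i => π' (b i)) (by
    rw [RingHom.mem_ker, map_sum] at hab
    simp only [map_mul] at hab
    simpa [hcomm] using hab)
  choose c' hc' using fun k i => hπ (c k i)
  choose y' hy' using fun k => hπ' (y k)
  refine ⟨κ, hκ, c', y', ?_, ?_⟩
  · intro k
    rw [RingHom.mem_ker, map_sum]
    have := hc k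
    simp only [map_mul, hc']
    simpa using this
  · intro i
    rw [RingHom.mem_ker, map_sub, map_sum]
    have := hy i
    simp only [map_mul, ← hcomm, hc', hy']
    simpa using this

end

theorem exists_mem_not_mem_sq {A : Type u} [CommRing A] [IsRegularLocalRing A] {d : ℕ}
    (hd : ringKrullDim A = (d + 1 : ℕ)) : ∃ t ∈ maximalIdeal A, t ∉ maximalIdeal A ^ 2 := by
  by_contra hcon
  push Not at hcon
  have hle : maximalIdeal A ≤ maximalIdeal A ^ 2 := hcon
  have hbot : maximalIdeal A = ⊥ := by
    apply Submodule.eq_bot_of_le_smul_of_le_jacobson_bot (maximalIdeal A) (maximalIdeal A)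
      (maximalIdeal A).fg_of_isNoetherianRing
    · rw [smul_eq_mul, ← pow_two]; exact hle
    · exact IsLocalRing.maximalIdeal_le_jacobson _
  have h2 : IsField A := isField_iff_maximalIdeal_eq.2 hbot
  have := ringKrullDim_eq_zero_of_isField h2
  rw [hd] at this
  have h3 : d + 1 = 0 := by exact_mod_cast this
  omega

theorem kunz (q : ℕ) (hq : 1 ≤ q) (d : ℕ) : ∀ (A : Type u) [CommRing A] [IsRegularLocalRing A]
    (φ : A →+* A), (∀ a, φ a = a ^ q) → ringKrullDim A = (d : ℕ) → Fl φ ⊥ ⊥ := by
  induction d with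
  | zero =>
    intro A _ _ φ hφ hd
    exact Fl.of_isField φ (isField_iff_maximalIdeal_eq.2
      (Pool.Agent.H379R3.dim_zero_maximalIdeal_eq_bot hd))
  | succ d ih =>
    intro A _ _ φ hφ hd
    obtain ⟨t, ht, ht2⟩ := exists_mem_not_mem_sq hd
    obtain ⟨hreg, hdim⟩ := Pool.Agent.H379R3.regular_quotient t ht ht2 d hd
    have hdom : IsDomain A := Pool.Agent.H379R3.isDomain A
    have ht0 : t ≠ 0 := by
      rintro rfl
      exact ht2 (Ideal.zero_mem _)
    have hle : Ideal.span {t} ≤ (Ideal.span {t}).comap φ := by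
      rw [Ideal.span_singleton_le_iff_mem, Ideal.mem_comap, hφ]
      exact Ideal.pow_mem_of_mem _ (Ideal.mem_span_singleton_self t) q hq
    have h1 := ih (A ⧸ Ideal.span {t}) (Ideal.quotientMap (Ideal.span {t}) φ hle) (by
      intro a
      obtain ⟨a, rfl⟩ := Ideal.Quotient.mk_surjective a
      rw [Ideal.quotientMap_mk, hφ, map_pow]) hdim
    have h2 := Fl.of_quotient φ _ (Ideal.Quotient.mk (Ideal.span {t}))
      (Ideal.Quotient.mk (Ideal.span {t})) Ideal.Quotient.mk_surjective
      Ideal.Quotient.mk_surjective (fun a => Ideal.quotientMap_mk) h1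
    rw [Ideal.mk_ker] at h2
    have h3 := Fl.ext φ (fun z hz => (mul_eq_zero.1 hz).resolve_left ht0) q (by
      intro a ha
      rw [hφ]
      exact pow_dvd_pow_of_dvd (Ideal.mem_span_singleton.1 ha) q) h2 (q - 1) (by omega)
    have h4 : q - 1 + 1 = q := by omega
    rw [h4, ← hφ] at h3
    have hφt : φ t ≠ 0 := by
      rw [hφ]; exact pow_ne_zero _ ht0
    have h5 := Fl.pow φ (fun z hz => (mul_eq_zero.1 hz).resolve_left hφt) h3
    refine Fl.of_pow φ ?_ h5
    rw [hφ]
    exact Ideal.pow_mem_of_mem _ ht q hq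

theorem kunz_local {A : Type u} [CommRing A] [IsRegularLocalRing A] (q : ℕ) (hq : 1 ≤ q)
    (φ : A →+* A) (hφ : ∀ a, φ a = a ^ q) : Fl φ ⊥ ⊥ := by
  obtain ⟨d, hd⟩ := Pool.Agent.H379R3.exists_dim_eq (B := A)
  exact kunz q hq d A φ hφ hd

end Pool.Agent.U197.FPure
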