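import Pool.Agent.U197.FPure.Strata
import Pool.Agent.U197.FPure.Kunz

/-! Global statements: the uniform bound and the flatness of the Frobenius map. -/

set_option autoImplicit false

namespace Pool.Agent.U197.FPure

universe u

open IsLocalRing

theorem exists_bound {R : Type u} [CommRing R] [IsRegularRing R]
    (hJ : ∀ (P : Ideal R) [P.IsPrime], ∃ g : R ⧸ P, g ≠ 0 ∧ ∀ (𝔮 : Ideal (R ⧸ P)) [𝔮.IsPrime],
      g ∉ 𝔮 → IsRegularLocalRing (Localization.AtPrime 𝔮))
    (c : R) (hc : ∀ P ∈ minimalPrimes R, c ∉ P) (I : Ideal R) :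
    ∃ N : ℕ, ∀ (m : Ideal R) [m.IsPrime], I ≤ m → ∀ q, N < q → ∀ φ : R →+* R,
      (∀ a, φ a = a ^ q) → c ∉ m.map φ := by
  let Pr : Ideal R → Prop := fun I => ∃ N : ℕ, ∀ (m : Ideal R) [m.IsPrime],
    I ≤ m → ∀ q, N < q → ∀ φ : R →+* R, (∀ a, φ a = a ^ q) → c ∉ m.map φ
  suffices key : ∀ I : Ideal R, (∀ J : Ideal R, I < J → Pr J) → Pr I from
    IsNoetherian.induction (P := Pr) key I
  intro I ih
  by_cases hI : I = ⊤
  · refine ⟨0, fun m _ hm => ?_⟩
    rw [hI, top_le_iff] at hm
    exact absurd hm Ideal.IsPrime.ne_top'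
  by_cases hP : I.IsPrime
  · have hc0 : algebraMap R (Localization.AtPrime I) c ≠ 0 := by
      intro h0
      rw [IsLocalization.map_eq_zero_iff I.primeCompl] at h0
      obtain ⟨⟨s, hs⟩, hsc⟩ := h0
      obtain ⟨p, hp, hpI⟩ := Ideal.exists_minimalPrimes_le (I := ⊥) (J := I) bot_le
      have hpp : p.IsPrime := hp.1.1
      have h1 : s * c ∈ p := by
        simp only at hsc
        rw [hsc]; exact p.zero_mem
      rcases hpp.mem_or_mem h1 with h2 | h2
      · exact hs (hpI h2)
      · exact hc p hp h2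
    obtain ⟨g, hg, hreg⟩ := hJ I
    obtain ⟨f, hf, n, hn⟩ := stratum I c hc0 g hg hreg
    obtain ⟨N, hN⟩ := ih (I ⊔ Ideal.span {f}) (by
      refine lt_of_le_of_ne le_sup_left ?_
      intro h
      apply hf
      rw [h]
      exact Ideal.mem_sup_right (Ideal.mem_span_singleton_self f))
    refine ⟨max n N, fun m _ hm q hq φ hφ => ?_⟩
    by_cases hfm : f ∈ m
    · refine hN m ?_ q (lt_of_le_of_lt (le_max_right _ _) hq) φ hφ
      exact sup_le hm ((Ideal.span_singleton_le_iff_mem _).2 hfm)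
    · have hker : RingHom.ker (Ideal.Quotient.mk I) ≤ m := by rwa [Ideal.mk_ker]
      have hprime : (m.map (Ideal.Quotient.mk I)).IsPrime :=
        Ideal.map_isPrime_of_surjective Ideal.Quotient.mk_surjective hker
      have hcomap : (m.map (Ideal.Quotient.mk I)).comap (Ideal.Quotient.mk I) = m := by
        rw [Ideal.comap_map_of_surjective _ Ideal.Quotient.mk_surjective,
          ← RingHom.ker_eq_comap_bot, Ideal.mk_ker]
        exact sup_eq_left.2 hm
      have h1 := hn (m.map (Ideal.Quotient.mk I)) (by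
        intro h
        apply hfm
        rw [← hcomap]
        exact h) q (lt_of_le_of_lt (le_max_left _ _) hq) φ hφ
      rwa [hcomap] at h1
  · rw [Ideal.not_isPrime_iff] at hP
    rcases hP with h | ⟨a, ha, b, hb, hab⟩
    · exact absurd h hI
    obtain ⟨N1, hN1⟩ := ih (I ⊔ Ideal.span {a}) (by
      refine lt_of_le_of_ne le_sup_left ?_
      intro h
      apply ha
      rw [h]
      exact Ideal.mem_sup_right (Ideal.mem_span_singleton_self a))
    obtain ⟨N2, hN2⟩ := ih (I ⊔ Ideal.span {b}) (by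
      refine lt_of_le_of_ne le_sup_left ?_
      intro h
      apply hb
      rw [h]
      exact Ideal.mem_sup_right (Ideal.mem_span_singleton_self b))
    refine ⟨max N1 N2, fun m _ hm q hq φ hφ => ?_⟩
    rcases Ideal.IsPrime.mem_or_mem inferInstance (hm hab) with h | h
    · exact hN1 m (sup_le hm ((Ideal.span_singleton_le_iff_mem _).2 h)) q
        (lt_of_le_of_lt (le_max_left _ _) hq) φ hφ
    · exact hN2 m (sup_le hm ((Ideal.span_singleton_le_iff_mem _).2 h)) q
        (lt_of_le_of_lt (le_max_right _ _) hq) φ hφ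

theorem kunz_global (R : Type u) [CommRing R] [IsRegularRing R] (p : ℕ) [hp : Fact p.Prime]
    [CharP R p] (e : ℕ) : Fl (iterateFrobenius R p e) ⊥ ⊥ := by
  classical
  set q := p ^ e with hq
  have hq1 : 1 ≤ q := Nat.one_le_pow _ _ hp.1.pos
  set φ := iterateFrobenius R p e with hφdef
  have hφ : ∀ a, φ a = a ^ q := fun a => by rw [hφdef, iterateFrobenius_def]
  apply Fl.of_relSpan
  intro ι _ a b hab
  set N := relSpan φ a with hN
  let K : Ideal R := Submodule.comap (LinearMap.toSpanSingleton R (ι → R) b) N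
  have hK : ∀ r, r ∈ K ↔ r • b ∈ N := fun r => by
    simp only [K, Submodule.mem_comap, LinearMap.toSpanSingleton_apply]
  suffices hKtop : K = ⊤ by
    have h1 : (1 : R) ∈ K := by rw [hKtop]; exact Submodule.mem_top
    rw [hK, one_smul] at h1
    exact h1
  by_contra hne
  obtain ⟨m, hm, hKm⟩ := Ideal.exists_le_maximal K hne
  have hmp : m.IsPrime := hm.isPrime
  set A := Localization.AtPrime m with hA
  set ψ := algebraMap R A with hψ
  have hcharA : CharP A p := by
    rw [CharP.charP_iff_prime_eq_zero hp.1]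
    have : ((p : R) : R) = 0 := CharP.cast_eq_zero R p
    have h2 := congrArg ψ this
    rwa [map_natCast, map_zero] at h2
  have hφA : ∀ a, iterateFrobenius A p e a = a ^ q := fun a => by rw [iterateFrobenius_def]
  have hfl := kunz_local q hq1 (iterateFrobenius A p e) hφA
  obtain ⟨κ, hκ, c, y, hc, hy⟩ := hfl ι (fun i => ψ (a i)) (fun i => ψ (b i)) (by
    have h1 := congrArg ψ hab
    rw [map_sum, map_zero] at h1
    rw [Ideal.mem_bot, ← h1]
    apply Finset.sum_congr rfl
    intro i _
    rw [hφA, map_mul, hφ, map_pow])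
  obtain ⟨⟨s1, hs1⟩, hs1'⟩ := IsLocalization.exist_integer_multiples_of_finite m.primeCompl
    (fun ki : κ × ι => c ki.1 ki.2)
  obtain ⟨⟨s2, hs2⟩, hs2'⟩ := IsLocalization.exist_integer_multiples_of_finite m.primeCompl y
  have hs1'' : ∀ k i, ∃ r : R, ψ r = ψ s1 * c k i := by
    intro k i
    obtain ⟨r, hr⟩ := hs1' (k, i)
    refine ⟨r, ?_⟩
    rw [hr]
    exact Algebra.smul_def _ _
  have hs2'' : ∀ k, ∃ r : R, ψ r = ψ s2 * y k := by
    intro k
    obtain ⟨r, hr⟩ := hs2' k
    refine ⟨r, ?_⟩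
    rw [hr]
    exact Algebra.smul_def _ _
  choose c' hc' using hs1''
  choose y' hy' using hs2''
  have hrel : ∀ k, ∃ t : R, t ∉ m ∧ t * ∑ i, a i * c' k i = 0 := by
    intro k
    have h1 : ψ (∑ i, a i * c' k i) = 0 := by
      rw [map_sum]
      have h2 : ∑ i, ψ (a i * c' k i) = ψ s1 * ∑ i, ψ (a i) * c k i := by
        rw [Finset.mul_sum]
        apply Finset.sum_congr rfl
        intro i _
        rw [map_mul, hc']; ring
      have h3 := hc k
      rw [Ideal.mem_bot] at h3
      rw [h2, h3, mul_zero]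
    rw [hψ, IsLocalization.map_eq_zero_iff m.primeCompl] at h1
    obtain ⟨⟨t, ht⟩, htt⟩ := h1
    exact ⟨t, ht, htt⟩
  choose t ht htt using hrel
  have htm : (∏ k, t k) ∉ m := by
    have : (∏ k, t k) ∈ m.primeCompl := Submonoid.prod_mem _ fun k _ => ht k
    exact this
  set T := ∏ k, t k with hT
  have hTrel : ∀ k, ∑ i, a i * (T * c' k i) = 0 := by
    intro k
    have h1 : ∑ i, a i * (T * c' k i) = T * ∑ i, a i * c' k i := by
      rw [Finset.mul_sum]
      exact Finset.sum_congr rfl fun i _ => by ring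
    rw [h1, hT, ← Finset.prod_erase_mul _ _ (Finset.mem_univ k), mul_assoc, htt, mul_zero]
  have heq : ∀ i, ∃ u : R, u ∉ m ∧ u * ((T * s1) ^ q * s2 * b i -
      ∑ k, (T * c' k i) ^ q * y' k) = 0 := by
    intro i
    have h1 : ψ ((T * s1) ^ q * s2 * b i - ∑ k, (T * c' k i) ^ q * y' k) = 0 := by
      have h2 : ψ (b i) = ∑ k, c k i ^ q * y k := by
        have := hy i
        rw [Ideal.mem_bot, sub_eq_zero] at this
        rw [this]
        exact Finset.sum_congr rfl fun k _ => by rw [hφA]
      rw [map_sub, map_mul, h2, map_sum, sub_eq_zero, Finset.mul_sum]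
      apply Finset.sum_congr rfl
      intro k _
      simp only [map_mul, map_pow, hc', hy']
      ring
    rw [hψ, IsLocalization.map_eq_zero_iff m.primeCompl] at h1
    obtain ⟨⟨u, hu⟩, huu⟩ := h1
    exact ⟨u, hu, huu⟩
  choose u hu huu using heq
  have hum : (∏ i, u i) ∉ m := by
    have : (∏ i, u i) ∈ m.primeCompl := Submonoid.prod_mem _ fun i _ => hu i
    exact this
  set U := ∏ i, u i with hU
  have hfin : U * ((T * s1) ^ q * s2) ∈ K := by
    rw [hK]
    have h1 : (U * ((T * s1) ^ q * s2)) • b = fun i => ∑ k, φ (T * c' k i) * (U * y' k) := by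
      funext i
      rw [Pi.smul_apply, smul_eq_mul]
      have h2 : U * ((T * s1) ^ q * s2 * b i - ∑ k, (T * c' k i) ^ q * y' k) = 0 := by
        rw [hU, ← Finset.prod_erase_mul _ _ (Finset.mem_univ i), mul_assoc, huu, mul_zero]
      have h3 : ∑ k, φ (T * c' k i) * (U * y' k) = U * ∑ k, (T * c' k i) ^ q * y' k := by
        rw [Finset.mul_sum]
        exact Finset.sum_congr rfl fun k _ => by rw [hφ]; ring
      rw [h3]
      linear_combination h2
    rw [h1]
    exact sum_mem_relSpan φ a (fun k i => T * c' k i) _ hTrel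
  have h1 := hKm hfin
  rcases hmp.mem_or_mem h1 with h2 | h2
  · exact hum h2
  · rcases hmp.mem_or_mem h2 with h3 | h3
    · rcases hmp.mem_or_mem (hmp.mem_of_pow_mem _ h3) with h4 | h4
      · exact htm h4
      · exact hs1 h4
    · exact hs2 h3

end Pool.Agent.U197.FPure
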