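import Mathlib
import Pool.Agent.H379R3.Reg

/-! Systems of parameters of regular local rings and monomials in them. -/

set_option autoImplicit false

namespace Pool.Agent.U197.FPure

universe u

open IsLocalRing

/-- A generating family of the maximal ideal whose length is the dimension. -/
structure IsParam {A : Type u} [CommRing A] [IsLocalRing A] {ι : Type} [Fintype ι]
    (z : ι → A) : Prop where
  span_eq : Ideal.span (Set.range z) = maximalIdeal A
  dim_eq : ringKrullDim A = (Fintype.card ι : ℕ)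

section

variable {A : Type u} [CommRing A] [IsRegularLocalRing A] {ι : Type} [Fintype ι]

theorem IsParam.mem {z : ι → A} (h : IsParam z) (i : ι) : z i ∈ maximalIdeal A := by
  rw [← h.span_eq]; exact Ideal.subset_span ⟨i, rfl⟩

theorem IsParam.not_mem_sq {z : ι → A} (h : IsParam z) (j : ι) : z j ∉ maximalIdeal A ^ 2 := by
  classical
  intro hj
  set S : Set A := z '' {i | i ≠ j} with hS
  have hle : maximalIdeal A ≤ Ideal.span S ⊔ maximalIdeal A • maximalIdeal A := by
    conv_lhs => rw [← h.span_eq]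
    rw [Ideal.span_le]
    rintro _ ⟨i, rfl⟩
    by_cases hi : i = j
    · subst hi
      apply Ideal.mem_sup_right
      rw [smul_eq_mul, ← pow_two]; exact hj
    · exact Ideal.mem_sup_left (Ideal.subset_span ⟨i, hi, rfl⟩)
  have hle2 : maximalIdeal A ≤ Ideal.span S :=
    Submodule.le_of_le_smul_of_le_jacobson_bot (maximalIdeal A).fg_of_isNoetherianRing
      (IsLocalRing.maximalIdeal_le_jacobson _) hle
  have heq : maximalIdeal A = Ideal.span S := by
    apply le_antisymm hle2
    rw [Ideal.span_le]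
    rintro _ ⟨i, _, rfl⟩
    exact h.mem i
  have h1 := ringKrullDim_le_spanFinrank_maximalIdeal A
  have h2 : (maximalIdeal A).spanFinrank ≤ Fintype.card ι - 1 := by
    rw [heq]
    refine (Submodule.spanFinrank_span_le_ncard_of_finite (Set.toFinite _)).trans ?_
    refine (Set.ncard_image_le (Set.toFinite _)).trans ?_
    have : ({i | i ≠ j} : Set ι) = ((Finset.univ.erase j : Finset ι) : Set ι) := by
      ext i; simp
    rw [this, Set.ncard_coe_finset, Finset.card_erase_of_mem (Finset.mem_univ _),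
      Finset.card_univ]
  rw [h.dim_eq] at h1
  have h3 : Fintype.card ι ≤ (maximalIdeal A).spanFinrank := by exact_mod_cast h1
  have h4 : 0 < Fintype.card ι := Fintype.card_pos_iff.2 ⟨j⟩
  omega

theorem IsParam.quotient [DecidableEq ι] {z : ι → A} (h : IsParam z) (j : ι) :
    ∃ _ : IsRegularLocalRing (A ⧸ Ideal.span {z j}),
      IsParam (fun i : {i // i ≠ j} => Ideal.Quotient.mk (Ideal.span {z j}) (z i)) := by
  obtain ⟨d, hd⟩ : ∃ d, Fintype.card ι = d + 1 :=
    ⟨Fintype.card ι - 1, by have := Fintype.card_pos_iff.2 ⟨j⟩; omega⟩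
  obtain ⟨hreg, hdim⟩ := Pool.Agent.H379R3.regular_quotient (z j) (h.mem j) (h.not_mem_sq j) d
    (by rw [h.dim_eq, hd])
  refine ⟨hreg, ?_, ?_⟩
  · rw [← Pool.Agent.H379R3.map_mk_maximalIdeal, ← h.span_eq, Ideal.map_span]
    apply le_antisymm
    · rw [Ideal.span_le]
      rintro _ ⟨i, rfl⟩
      exact Ideal.subset_span ⟨z i, ⟨i, rfl⟩, rfl⟩
    · rw [Ideal.span_le]
      rintro _ ⟨_, ⟨i, rfl⟩, rfl⟩
      by_cases hi : i = j
      · subst hi
        have : Ideal.Quotient.mk (Ideal.span {z i}) (z i) = 0 :=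
          Ideal.Quotient.eq_zero_iff_mem.2 (Ideal.mem_span_singleton_self _)
        rw [this]
        exact Ideal.zero_mem _
      · exact Ideal.subset_span ⟨⟨i, hi⟩, rfl⟩
  · rw [hdim]
    have : Fintype.card {i // i ≠ j} = d := by
      rw [Fintype.card_subtype_compl, hd]
      simp
    rw [this]

end

theorem nzd_pow {A : Type u} [CommRing A] (J : Ideal A) (z w : A)
    (h1 : ∀ u, z * u ∈ J ⊔ Ideal.span {w} → u ∈ J ⊔ Ideal.span {w})
    (h2 : ∀ u, w * u ∈ J → u ∈ J) (n : ℕ) :
    ∀ u, z * u ∈ J ⊔ Ideal.span {w ^ n} → u ∈ J ⊔ Ideal.span {w ^ n} := by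
  induction n with
  | zero => intro u _; simp
  | succ n ih =>
    intro u hu
    have hle : J ⊔ Ideal.span {w ^ (n + 1)} ≤ J ⊔ Ideal.span {w} := by
      apply sup_le_sup_left
      rw [Ideal.span_singleton_le_span_singleton]
      exact Dvd.intro_left (w ^ n) (by ring)
    obtain ⟨j, hj, x, hx, hjx⟩ := Submodule.mem_sup.1 (h1 u (hle hu))
    obtain ⟨u', rfl⟩ := Ideal.mem_span_singleton'.1 hx
    obtain ⟨j2, hj2, y, hy, hjy⟩ := Submodule.mem_sup.1 hu
    obtain ⟨v, rfl⟩ := Ideal.mem_span_singleton'.1 hy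
    have h3 : w * (z * u' - v * w ^ n) ∈ J := by
      have : w * (z * u' - v * w ^ n) = j2 - z * j := by
        have e1 : z * u = z * (j + u' * w) := by rw [hjx]
        have e2 : z * (j + u' * w) = j2 + v * w ^ (n + 1) := by rw [← e1, hjy]
        linear_combination e2
      rw [this]
      exact J.sub_mem hj2 (J.mul_mem_left _ hj)
    have h4 := h2 _ h3
    have h5 : z * u' ∈ J ⊔ Ideal.span {w ^ n} := by
      rw [Submodule.mem_sup]
      exact ⟨_, h4, v * w ^ n, Ideal.mem_span_singleton'.2 ⟨v, rfl⟩, by ring⟩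
    obtain ⟨j3, hj3, y3, hy3, hjy3⟩ := Submodule.mem_sup.1 (ih u' h5)
    obtain ⟨v3, rfl⟩ := Ideal.mem_span_singleton'.1 hy3
    rw [Submodule.mem_sup]
    refine ⟨j + j3 * w, J.add_mem hj (J.mul_mem_right _ hj3), v3 * w ^ (n + 1),
      Ideal.mem_span_singleton'.2 ⟨v3, rfl⟩, ?_⟩
    rw [← hjx, ← hjy3]
    ring

theorem nzd (k : ℕ) : ∀ (A : Type u) [CommRing A] [IsRegularLocalRing A] (ι : Type) [Fintype ι]
    [DecidableEq ι] (z : ι → A), IsParam z → ∀ (T : Finset ι) (c : ι → ℕ), T.card = k →
    ∀ i, i ∉ T → ∀ u, z i * u ∈ Ideal.span ((fun j => z j ^ c j) '' (T : Set ι)) →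
      u ∈ Ideal.span ((fun j => z j ^ c j) '' (T : Set ι)) := by
  induction k with
  | zero =>
    intro A _ _ ι _ _ z hz T c hT i _ u hu
    rw [Finset.card_eq_zero] at hT
    subst hT
    simp only [Finset.coe_empty, Set.image_empty, Ideal.span_empty, Ideal.mem_bot] at hu ⊢
    have hdom : IsDomain A := Pool.Agent.H379R3.isDomain A
    have h0 : z i ≠ 0 := by
      intro h
      exact hz.not_mem_sq i (by rw [h]; exact Ideal.zero_mem _)
    exact (mul_eq_zero.1 hu).resolve_left h0
  | succ k ih =>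
    intro A _ _ ι _ _ z hz T c hT i hi u hu
    obtain ⟨j, T', hj, rfl, hT'⟩ := Finset.card_eq_succ.1 hT
    have hij : i ≠ j := by
      rintro rfl
      exact hi (Finset.mem_insert_self _ _)
    have hi' : i ∉ T' := fun h => hi (Finset.mem_insert_of_mem h)
    set J := Ideal.span ((fun j => z j ^ c j) '' (T' : Set ι)) with hJ
    have hsup : Ideal.span ((fun j => z j ^ c j) '' ((insert j T' : Finset ι) : Set ι)) =
        J ⊔ Ideal.span {z j ^ c j} := by
      rw [Finset.coe_insert, Set.image_insert_eq, Ideal.span_insert, sup_comm]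
    rw [hsup] at hu ⊢
    obtain ⟨hreg, hz'⟩ := hz.quotient j
    refine nzd_pow J (z i) (z j) ?_ ?_ (c j) u hu
    · intro w hw
      have hmap : J.map (Ideal.Quotient.mk (Ideal.span {z j})) =
          Ideal.span ((fun l : {l // l ≠ j} => (Ideal.Quotient.mk (Ideal.span {z j}) (z l)) ^ c l)
            '' ((T'.subtype (fun l => l ≠ j) : Finset {l // l ≠ j}) : Set {l // l ≠ j})) := by
        rw [hJ, Ideal.map_span]
        congr 1
        ext y
        constructor
        · rintro ⟨_, ⟨l, hl, rfl⟩, rfl⟩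
          refine ⟨⟨l, ?_⟩, ?_, ?_⟩
          · rintro rfl
            exact hj (by simpa using hl)
          · simpa using hl
          · simp
        · rintro ⟨l, hl, rfl⟩
          refine ⟨z l ^ c l, ⟨l, ?_, rfl⟩, ?_⟩
          · simpa using hl
          · simp
      have hcomap : ∀ y, Ideal.Quotient.mk (Ideal.span {z j}) y ∈
          J.map (Ideal.Quotient.mk (Ideal.span {z j})) ↔ y ∈ J ⊔ Ideal.span {z j} := by
        intro y
        rw [← Ideal.mem_comap, Ideal.comap_map_of_surjective _ Ideal.Quotient.mk_surjective,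
          ← RingHom.ker_eq_comap_bot, Ideal.mk_ker]
      rw [← hcomap] at hw ⊢
      rw [hmap] at hw ⊢
      refine ih (A ⧸ Ideal.span {z j}) {l // l ≠ j} _ hz' (T'.subtype (fun l => l ≠ j))
        (fun l => c l) ?_ ⟨i, hij⟩ (by simpa using hi') _ (by simpa using hw)
      rw [Finset.card_subtype, Finset.filter_true_of_mem, hT']
      intro l hl
      rintro rfl
      exact hj hl
    · intro w hw
      exact ih A ι z hz T' c hT' j hj w hw

theorem monomial_not_mem (q : ℕ) (hq : 1 ≤ q) (d : ℕ) : ∀ (A : Type u) [CommRing A]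
    [IsRegularLocalRing A] (ι : Type) [Fintype ι] [DecidableEq ι] (z : ι → A), IsParam z →
    Fintype.card ι = d → ∏ i, z i ^ (q - 1) ∉ Ideal.span (Set.range fun i => z i ^ q) := by
  induction d with
  | zero =>
    intro A _ _ ι _ _ z _ hι hmem
    have : IsEmpty ι := Fintype.card_eq_zero_iff.1 hι
    rw [Set.range_eq_empty, Ideal.span_empty, Ideal.mem_bot] at hmem
    simp at hmem
  | succ d ih =>
    intro A _ _ ι _ _ z hz hι hmem
    obtain ⟨j⟩ : Nonempty ι := Fintype.card_pos_iff.1 (by omega)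
    obtain ⟨hreg, hz'⟩ := hz.quotient j
    set J := Ideal.span ((fun j => z j ^ q) '' ((Finset.univ.erase j : Finset ι) : Set ι)) with hJ
    have hsup : Ideal.span (Set.range fun i => z i ^ q) = J ⊔ Ideal.span {z j ^ q} := by
      rw [hJ, sup_comm, ← Ideal.span_insert]
      congr 1
      ext y
      constructor
      · rintro ⟨i, rfl⟩
        by_cases hi : i = j
        · subst hi; exact Set.mem_insert _ _
        · exact Set.mem_insert_of_mem _ ⟨i, by simp [hi], rfl⟩
      · rintro (rfl | ⟨i, _, rfl⟩)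
        · exact ⟨j, rfl⟩
        · exact ⟨i, rfl⟩
    rw [hsup, ← Finset.mul_prod_erase _ _ (Finset.mem_univ j)] at hmem
    obtain ⟨j0, hj0, y, hy, hjy⟩ := Submodule.mem_sup.1 hmem
    obtain ⟨v, rfl⟩ := Ideal.mem_span_singleton'.1 hy
    have h1 : z j ^ (q - 1) * (∏ i ∈ Finset.univ.erase j, z i ^ (q - 1) - v * z j) ∈ J := by
      have : z j ^ (q - 1) * (∏ i ∈ Finset.univ.erase j, z i ^ (q - 1) - v * z j) = j0 := by
        have hqq : z j ^ q = z j ^ (q - 1) * z j := by
          rw [← pow_succ]; congr 1; omega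
        rw [hqq] at hjy
        linear_combination -hjy
      rw [this]; exact hj0
    have h2 : ∀ (m : ℕ) (u : A), z j ^ m * u ∈ J → u ∈ J := by
      intro m
      induction m with
      | zero => intro u hu; simpa using hu
      | succ m ihm =>
        intro u hu
        apply ihm
        refine nzd _ A ι z hz (Finset.univ.erase j) (fun _ => q) rfl j (by simp) _ ?_
        have : z j * (z j ^ m * u) = z j ^ (m + 1) * u := by ring
        rw [this]; exact hu
    have h3 := h2 _ _ h1
    have h4 := Ideal.mem_map_of_mem (Ideal.Quotient.mk (Ideal.span {z j})) h3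
    rw [map_sub, map_mul] at h4
    have h5 : Ideal.Quotient.mk (Ideal.span {z j}) (z j) = 0 :=
      Ideal.Quotient.eq_zero_iff_mem.2 (Ideal.mem_span_singleton_self _)
    rw [h5, mul_zero, sub_zero] at h4
    refine ih (A ⧸ Ideal.span {z j}) {l // l ≠ j} _ hz' ?_ ?_
    · rw [Fintype.card_subtype_compl, hι]
      simp
    · have h6 : ∏ i : {l // l ≠ j}, (Ideal.Quotient.mk (Ideal.span {z j}) (z i)) ^ (q - 1) =
          Ideal.Quotient.mk (Ideal.span {z j}) (∏ i ∈ Finset.univ.erase j, z i ^ (q - 1)) := by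
        rw [map_prod]
        simp only [map_pow]
        rw [← Finset.prod_subtype (Finset.univ.erase j) (p := fun l => l ≠ j)
          (f := fun i => (Ideal.Quotient.mk (Ideal.span {z j}) (z i)) ^ (q - 1))]
        intro x
        simp
      rw [h6]
      refine (Ideal.map_le_iff_le_comap.2 ?_) h4
      rw [hJ, Ideal.span_le]
      rintro _ ⟨i, hi, rfl⟩
      rw [SetLike.mem_coe, Ideal.mem_comap, map_pow]
      exact Ideal.subset_span ⟨⟨i, by simpa using hi⟩, rfl⟩

theorem hom_not_mem (q : ℕ) {A : Type u} [CommRing A]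
    [IsRegularLocalRing A] {ι : Type} [Fintype ι] (z : ι → A) (hz : IsParam z)
    (F : MvPolynomial ι A) (n : ℕ) (hF : F.IsHomogeneous n) (α : ι →₀ ℕ)
    (hα : F.coeff α ∉ maximalIdeal A) (hn : n < q) :
    MvPolynomial.eval z F ∉ Ideal.span (Set.range fun i => z i ^ q) := by
  classical
  intro hmem
  set I := Ideal.span (Set.range fun i => z i ^ q) with hI
  have hα0 : F.coeff α ≠ 0 := by
    intro h; rw [h] at hα; exact hα (Ideal.zero_mem _)
  have hαs : α ∈ F.support := MvPolynomial.mem_support_iff.2 hα0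
  have hdeg : ∀ β ∈ F.support, ∑ i, β i = n := by
    intro β hβ
    have := hF (MvPolynomial.mem_support_iff.1 hβ)
    rw [Finsupp.weight_apply, Finsupp.sum_fintype _ _ (by simp)] at this
    simpa using this
  have hαn : ∀ i, α i ≤ n := by
    intro i
    rw [← hdeg α hαs]
    exact Finset.single_le_sum (f := fun i => α i) (fun _ _ => Nat.zero_le _) (Finset.mem_univ i)
  have h1 : (∏ i, z i ^ (q - 1 - α i)) * MvPolynomial.eval z F ∈ I := I.mul_mem_left _ hmem
  rw [MvPolynomial.eval_eq', Finset.mul_sum, ← Finset.add_sum_erase _ _ hαs] at h1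
  have h2 : ∑ β ∈ F.support.erase α, (∏ i, z i ^ (q - 1 - α i)) *
      (F.coeff β * ∏ i, z i ^ β i) ∈ I := by
    apply Ideal.sum_mem
    intro β hβ
    obtain ⟨hβα, hβs⟩ := Finset.mem_erase.1 hβ
    have hex : ∃ i, α i < β i := by
      by_contra hcon
      push Not at hcon
      apply hβα
      ext i
      have h3 : ∀ i ∈ Finset.univ, β i = α i := by
        rw [← Finset.sum_eq_sum_iff_of_le (fun i _ => hcon i), hdeg β hβs, hdeg α hαs]
      exact h3 i (Finset.mem_univ i)
    obtain ⟨i, hi⟩ := hex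
    have h4 : (∏ i, z i ^ (q - 1 - α i)) * (F.coeff β * ∏ i, z i ^ β i) =
        F.coeff β * ∏ i, z i ^ (q - 1 - α i + β i) := by
      simp only [pow_add, Finset.prod_mul_distrib]
      ring
    rw [h4]
    apply I.mul_mem_left
    refine I.mem_of_dvd (a := z i ^ q) ?_ ?_
    · exact (pow_dvd_pow (z i) (by have := hαn i; omega)).trans
        (Finset.dvd_prod_of_mem (fun i => z i ^ (q - 1 - α i + β i)) (Finset.mem_univ i))
    · exact Ideal.subset_span ⟨i, rfl⟩
  have h3 := I.sub_mem h1 h2
  rw [add_sub_cancel_right] at h3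
  have h4 : (∏ i, z i ^ (q - 1 - α i)) * (F.coeff α * ∏ i, z i ^ α i) =
      F.coeff α * ∏ i, z i ^ (q - 1) := by
    have : ∏ i, z i ^ (q - 1) = (∏ i, z i ^ (q - 1 - α i)) * ∏ i, z i ^ α i := by
      rw [← Finset.prod_mul_distrib]
      apply Finset.prod_congr rfl
      intro i _
      rw [← pow_add]
      congr 1
      have := hαn i
      omega
    rw [this]
    ring
  rw [h4] at h3
  have hu : IsUnit (F.coeff α) := by
    by_contra h
    exact hα ((IsLocalRing.mem_maximalIdeal _).2 h)
  exact monomial_not_mem q (by omega) _ A ι z hz rfl ((Ideal.unit_mul_mem_iff_mem _ hu).1 h3)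

end Pool.Agent.U197.FPure
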