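import Mathlib

/-! Equational flatness of a quotient along a ring map. -/

set_option autoImplicit false

namespace Pool.Agent.U197.FPure

universe u v

/-- Every relation `∑ φ (a i) * b i ∈ J'` with coefficients from `A` comes from relations
`∑ a i * c k i ∈ J`, modulo `J'`. -/
def Fl {A : Type u} {B : Type v} [CommRing A] [CommRing B] (φ : A →+* B)
    (J : Ideal A) (J' : Ideal B) : Prop :=
  ∀ (ι : Type) [Fintype ι] (a : ι → A) (b : ι → B), ∑ i, φ (a i) * b i ∈ J' →
    ∃ (κ : Type) (_ : Fintype κ) (c : κ → ι → A) (y : κ → B),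
      (∀ k, ∑ i, a i * c k i ∈ J) ∧ ∀ i, b i - ∑ k, φ (c k i) * y k ∈ J'

variable {A : Type u} {B : Type v} [CommRing A] [CommRing B] (φ : A →+* B)

theorem Fl.ext {J : Ideal A} {y : B} (hy : ∀ z, y * z = 0 → z = 0) (m : ℕ)
    (hJ : ∀ a ∈ J, y ^ m ∣ φ a) (h : Fl φ J (Ideal.span {y})) :
    ∀ j, j + 1 ≤ m → Fl φ J (Ideal.span {y ^ (j + 1)}) := by
  intro j
  induction j with
  | zero => intro _; simpa using h
  | succ j ih =>
    intro hjm ι _ a b hab
    have hab1 : ∑ i, φ (a i) * b i ∈ Ideal.span {y} := by
      rw [Ideal.mem_span_singleton] at hab ⊢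
      exact (Dvd.intro_left (y ^ (j + 1)) (by ring)).trans hab
    obtain ⟨κ, hκ, c, w, hc, hb⟩ := h ι a b hab1
    choose β hβ using fun i => Ideal.mem_span_singleton'.1 (hb i)
    have h1 : y * ∑ i, φ (a i) * β i =
        ∑ i, φ (a i) * b i - ∑ k, φ (∑ i, a i * c k i) * w k := by
      have h2 : ∀ i, φ (a i) * b i = φ (a i) * ∑ k, φ (c k i) * w k + y * (φ (a i) * β i) := by
        intro i
        have := hβ i
        have h3 : b i = ∑ k, φ (c k i) * w k + β i * y := by rw [this]; ring
        rw [h3]; ring
      rw [Finset.sum_congr rfl (fun i _ => h2 i), Finset.sum_add_distrib, Finset.mul_sum]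
      simp only [map_sum, map_mul, Finset.sum_mul, Finset.mul_sum]
      rw [Finset.sum_comm]
      simp only [mul_assoc]
      ring
    have h2 : y * ∑ i, φ (a i) * β i ∈ Ideal.span {y ^ (j + 1 + 1)} := by
      rw [h1]
      refine Ideal.sub_mem _ hab (Ideal.sum_mem _ fun k _ => ?_)
      refine Ideal.mul_mem_right _ _ ?_
      rw [Ideal.mem_span_singleton]
      exact (pow_dvd_pow y hjm).trans (hJ _ (hc k))
    have h3 : ∑ i, φ (a i) * β i ∈ Ideal.span {y ^ (j + 1)} := by
      obtain ⟨t, ht⟩ := Ideal.mem_span_singleton'.1 h2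
      rw [Ideal.mem_span_singleton']
      refine ⟨t, ?_⟩
      have := hy (∑ i, φ (a i) * β i - t * y ^ (j + 1)) (by
        rw [mul_sub, ← ht]; ring)
      exact (sub_eq_zero.1 this).symm
    obtain ⟨κ', hκ', c', w', hc', hb'⟩ := ih (by omega) ι a β h3
    refine ⟨κ ⊕ κ', inferInstance, Sum.elim c c', Sum.elim w (fun k => y * w' k), ?_, ?_⟩
    · rintro (k | k)
      · exact hc k
      · exact hc' k
    · intro i
      rw [Fintype.sum_sum_type]
      simp only [Sum.elim_inl, Sum.elim_inr]
      obtain ⟨t, ht⟩ := Ideal.mem_span_singleton'.1 (hb' i)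
      rw [Ideal.mem_span_singleton']
      refine ⟨t, ?_⟩
      have h4 : ∑ k, φ (c' k i) * (y * w' k) = y * ∑ k, φ (c' k i) * w' k := by
        rw [Finset.mul_sum]
        exact Finset.sum_congr rfl fun k _ => by ring
      rw [h4]
      have h5 : b i = ∑ k, φ (c k i) * w k + β i * y := by rw [hβ i]; ring
      have h6 : β i = ∑ k, φ (c' k i) * w' k + t * y ^ (j + 1) := by rw [ht]; ring
      rw [h5]
      conv_rhs => rw [h6]
      ring

theorem Fl.pow {x : A} (hy : ∀ z, φ x * z = 0 → z = 0)
    (h : Fl φ (Ideal.span {x}) (Ideal.span {φ x})) :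
    ∀ n : ℕ, Fl φ (Ideal.span {x ^ n}) (Ideal.span {φ x ^ n}) := by
  intro n
  induction n with
  | zero =>
    intro ι _ a b _
    refine ⟨PEmpty, inferInstance, fun k => k.elim, fun k => k.elim, fun k => k.elim, ?_⟩
    intro i
    simp
  | succ n ih =>
    intro ι _ a b hab
    have hab1 : ∑ i, φ (a i) * b i ∈ Ideal.span {φ x} := by
      rw [Ideal.mem_span_singleton] at hab ⊢
      exact (Dvd.intro_left (φ x ^ n) (by ring)).trans hab
    obtain ⟨κ, hκ, c, w, hc, hb⟩ := h ι a b hab1
    choose β hβ using fun i => Ideal.mem_span_singleton'.1 (hb i)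
    choose α hα using fun k => Ideal.mem_span_singleton'.1 (hc k)
    have h5 : ∀ i, b i = ∑ k, φ (c k i) * w k + φ x * β i := by
      intro i
      have : φ x * β i = b i - ∑ k, φ (c k i) * w k := by rw [← hβ i]; ring
      rw [this]; ring
    have h1 : ∑ i, φ (a i) * b i = φ x * (∑ k, φ (α k) * w k + ∑ i, φ (a i) * β i) := by
      have h2 : ∀ i, φ (a i) * b i = ∑ k, φ (a i) * (φ (c k i) * w k) + φ x * (φ (a i) * β i) := by
        intro i
        rw [h5 i, mul_add, Finset.mul_sum]
        ring
      rw [Finset.sum_congr rfl (fun i _ => h2 i), Finset.sum_add_distrib, Finset.sum_comm,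
        mul_add, Finset.mul_sum, Finset.mul_sum]
      congr 1
      apply Finset.sum_congr rfl
      intro k _
      have h3 : φ x * (φ (α k) * w k) = φ (α k * x) * w k := by rw [map_mul]; ring
      rw [h3, hα k, map_sum, Finset.sum_mul]
      apply Finset.sum_congr rfl
      intro i _
      rw [map_mul]; ring
    have h3 : ∑ k, φ (α k) * w k + ∑ i, φ (a i) * β i ∈ Ideal.span {φ x ^ n} := by
      rw [h1] at hab
      obtain ⟨t, ht⟩ := Ideal.mem_span_singleton'.1 hab
      rw [Ideal.mem_span_singleton']
      refine ⟨t, ?_⟩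
      have := hy (∑ k, φ (α k) * w k + ∑ i, φ (a i) * β i - t * φ x ^ n) (by
        rw [mul_sub, ← ht]; ring)
      exact (sub_eq_zero.1 this).symm
    obtain ⟨κ', hκ', c', w', hc', hb'⟩ := ih (κ ⊕ ι) (Sum.elim α a) (Sum.elim w β) (by
      rw [Fintype.sum_sum_type]
      simpa using h3)
    simp only [Fintype.sum_sum_type, Sum.elim_inl, Sum.elim_inr] at hc'
    choose v hv using fun i => Ideal.mem_span_singleton'.1 (hb' i)
    refine ⟨κ' ⊕ κ, inferInstance,
      Sum.elim (fun l i => ∑ k, c k i * c' l (Sum.inl k) + x * c' l (Sum.inr i))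
        (fun k i => x ^ n * c k i),
      Sum.elim w' (fun k => v (Sum.inl k)), ?_, ?_⟩
    · rintro (l | k)
      · simp only [Sum.elim_inl]
        obtain ⟨t, ht⟩ := Ideal.mem_span_singleton'.1 (hc' l)
        rw [Ideal.mem_span_singleton']
        refine ⟨t, ?_⟩
        have h6 : t * x ^ (n + 1) = x * (t * x ^ n) := by ring
        rw [h6, ht, mul_add]
        simp only [mul_add, Finset.sum_add_distrib]
        congr 1
        · simp only [Finset.mul_sum]
          rw [Finset.sum_comm]
          apply Finset.sum_congr rfl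
          intro k _
          have h7 : x * (α k * c' l (Sum.inl k)) = (α k * x) * c' l (Sum.inl k) := by ring
          rw [h7, hα k, Finset.sum_mul]
          apply Finset.sum_congr rfl
          intro i _
          ring
        · rw [Finset.mul_sum]
          apply Finset.sum_congr rfl
          intro i _
          ring
      · simp only [Sum.elim_inr]
        rw [Ideal.mem_span_singleton']
        refine ⟨α k, ?_⟩
        have h6 : ∑ i, a i * (x ^ n * c k i) = x ^ n * ∑ i, a i * c k i := by
          rw [Finset.mul_sum]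
          exact Finset.sum_congr rfl fun i _ => by ring
        rw [h6, ← hα k]
        ring
    · intro i
      rw [Fintype.sum_sum_type]
      simp only [Sum.elim_inl, Sum.elim_inr]
      rw [Ideal.mem_span_singleton']
      refine ⟨v (Sum.inr i), ?_⟩
      have h8 : ∀ k, w k = ∑ l, φ (c' l (Sum.inl k)) * w' l + v (Sum.inl k) * φ x ^ n := by
        intro k
        have := hv (Sum.inl k)
        simp only [Sum.elim_inl] at this
        rw [this]; ring
      have h9 : β i = ∑ l, φ (c' l (Sum.inr i)) * w' l + v (Sum.inr i) * φ x ^ n := by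
        have := hv (Sum.inr i)
        simp only [Sum.elim_inr] at this
        rw [this]; ring
      have h10 : ∑ k, φ (c k i) * w k = ∑ l, φ (∑ k, c k i * c' l (Sum.inl k)) * w' l +
          ∑ k, φ (x ^ n * c k i) * v (Sum.inl k) := by
        have h11 : ∀ k, φ (c k i) * w k = ∑ l, φ (c k i * c' l (Sum.inl k)) * w' l +
            φ (x ^ n * c k i) * v (Sum.inl k) := by
          intro k
          rw [h8 k, mul_add, Finset.mul_sum]
          congr 1
          · apply Finset.sum_congr rfl
            intro l _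
            rw [map_mul]; ring
          · rw [map_mul, map_pow]; ring
        rw [Finset.sum_congr rfl (fun k _ => h11 k), Finset.sum_add_distrib, Finset.sum_comm]
        congr 1
        apply Finset.sum_congr rfl
        intro l _
        rw [map_sum, Finset.sum_mul]
      rw [h5 i, h10, h9]
      have h12 : ∑ l, φ (∑ k, c k i * c' l (Sum.inl k) + x * c' l (Sum.inr i)) * w' l =
          ∑ l, φ (∑ k, c k i * c' l (Sum.inl k)) * w' l +
            φ x * ∑ l, φ (c' l (Sum.inr i)) * w' l := by
        rw [Finset.mul_sum, ← Finset.sum_add_distrib]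
        apply Finset.sum_congr rfl
        intro l _
        rw [map_add, map_mul]; ring
      rw [h12]
      ring

end Pool.Agent.U197.FPure
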