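import Pool.Agent.U197.FPure.Param

/-! Uniform control of Frobenius powers along a stratum. -/

set_option autoImplicit false

namespace Pool.Agent.U197.FPure

universe u

open IsLocalRing

section

variable {C : Type u} [CommRing C]

theorem exists_gens_of_regular {A : Type u} [CommRing A] [IsRegularLocalRing A] :
    ∃ (h : ℕ) (z : Fin h → A), ringKrullDim A = (h : ℕ) ∧
      Ideal.span (Set.range z) = maximalIdeal A := by
  let b := Module.finBasis (ResidueField A) (CotangentSpace A)
  choose z hz using fun i => Ideal.toCotangent_surjective (maximalIdeal A) (b i)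
  exact ⟨_, fun i => (z i : A), Pool.Agent.H379R3.finrank_cotangent.symm,
    Pool.Agent.H379R3.span_of_basis b z hz⟩

theorem exists_gens (P : Ideal C) [P.IsPrime] [IsRegularLocalRing (Localization.AtPrime P)] :
    ∃ (h : ℕ) (x : Fin h → C), (∀ i, x i ∈ P) ∧ P.height = (h : ℕ∞) ∧
      (Ideal.span (Set.range x)).map (algebraMap C (Localization.AtPrime P)) =
        maximalIdeal (Localization.AtPrime P) := by
  obtain ⟨h, z, hd, hz⟩ := exists_gens_of_regular (A := Localization.AtPrime P)
  have hc : ∀ i, ∃ c : C, c ∈ P ∧ z i ∈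
      Ideal.map (algebraMap C (Localization.AtPrime P)) (Ideal.span {c}) := by
    intro i
    obtain ⟨c, t, hct⟩ := IsLocalization.exists_mk'_eq P.primeCompl (z i)
    have hzi : z i ∈ maximalIdeal (Localization.AtPrime P) := by
      rw [← hz]; exact Ideal.subset_span ⟨i, rfl⟩
    refine ⟨c, ?_, ?_⟩
    · rw [← hct] at hzi
      exact (IsLocalization.AtPrime.mk'_mem_maximal_iff (Localization.AtPrime P) P c t).1 hzi
    · rw [← hct, Ideal.map_span, Set.image_singleton]
      rw [Ideal.mem_span_singleton]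
      refine ⟨IsLocalization.mk' _ 1 t, ?_⟩
      rw [← IsLocalization.mk'_one (M := P.primeCompl) (Localization.AtPrime P) c,
        ← IsLocalization.mk'_mul]
      simp
  choose c hcP hcz using hc
  refine ⟨h, c, hcP, ?_, le_antisymm ?_ ?_⟩
  · rw [IsLocalization.AtPrime.ringKrullDim_eq_height P (Localization.AtPrime P)] at hd
    exact_mod_cast hd
  · rw [← Localization.AtPrime.map_eq_maximalIdeal]
    apply Ideal.map_mono
    rw [Ideal.span_le]
    rintro _ ⟨i, rfl⟩
    exact hcP i
  · rw [← hz, Ideal.span_le]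
    rintro _ ⟨i, rfl⟩
    refine Ideal.map_mono (Ideal.span_mono ?_) (hcz i)
    rintro _ rfl
    exact ⟨i, rfl⟩

theorem mem_of_map_mem (P : Ideal C) [P.IsPrime] (J : Ideal C) (y : C)
    (h : algebraMap C (Localization.AtPrime P) y ∈ J.map (algebraMap C (Localization.AtPrime P))) :
    ∃ c, c ∉ P ∧ c * y ∈ J := by
  rw [IsLocalization.algebraMap_mem_map_algebraMap_iff P.primeCompl] at h
  obtain ⟨m, hm, hmy⟩ := h
  exact ⟨m, hm, hmy⟩

theorem exists_common_mul (P : Ideal C) [P.IsPrime] (J K : Ideal C) (hK : K.FG)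
    (h : ∀ y ∈ K, ∃ c, c ∉ P ∧ c * y ∈ J) : ∃ f, f ∉ P ∧ ∀ y ∈ K, f * y ∈ J := by
  classical
  obtain ⟨S, hS⟩ := hK
  have h' : ∀ y : C, ∃ c, c ∉ P ∧ (y ∈ K → c * y ∈ J) := by
    intro y
    by_cases hy : y ∈ K
    · obtain ⟨c, hc, hcy⟩ := h y hy
      exact ⟨c, hc, fun _ => hcy⟩
    · exact ⟨1, P.ne_top_iff_one.1 Ideal.IsPrime.ne_top', fun h => absurd h hy⟩
  choose c hc hcy using h'
  refine ⟨∏ s ∈ S, c s, ?_, ?_⟩
  · have : (∏ s ∈ S, c s) ∈ P.primeCompl := Submonoid.prod_mem _ fun s _ => hc s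
    exact this
  · intro y hy
    have hle : K ≤ Submodule.comap (LinearMap.mulLeft C (∏ s ∈ S, c s)) J := by
      rw [← hS, Submodule.span_le]
      intro s hs
      rw [SetLike.mem_coe, Submodule.mem_comap, LinearMap.mulLeft_apply,
        ← Finset.mul_prod_erase _ _ hs, mul_right_comm]
      apply J.mul_mem_right
      exact hcy s (hS ▸ Submodule.subset_span hs)
    exact hle hy

theorem height_add_le (P : Ideal C) [P.IsPrime] (n : ℕ) : ∀ (𝔮 : Ideal (C ⧸ P)) [𝔮.IsPrime],
    (n : ℕ∞) ≤ 𝔮.height → P.height + n ≤ (𝔮.comap (Ideal.Quotient.mk P)).height := by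
  induction n with
  | zero =>
    intro 𝔮 _ _
    simp only [Nat.cast_zero, add_zero]
    apply Ideal.height_mono
    intro x hx
    rw [Ideal.mem_comap, Ideal.Quotient.eq_zero_iff_mem.2 hx]
    exact 𝔮.zero_mem
  | succ n ih =>
    intro 𝔮 _ hq
    have h1 : ¬ 𝔮.height ≤ n := by
      intro h
      have h2 : ((n + 1 : ℕ) : ℕ∞) ≤ (n : ℕ∞) := hq.trans h
      have h3 : n + 1 ≤ n := by exact_mod_cast h2
      omega
    rw [Ideal.height_le_iff] at h1
    push Not at h1
    obtain ⟨P', hP', hlt, hge⟩ := h1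
    have h2 := ih P' hge
    have hlt' : P'.comap (Ideal.Quotient.mk P) < 𝔮.comap (Ideal.Quotient.mk P) := by
      refine lt_of_le_of_ne (Ideal.comap_mono hlt.le) ?_
      intro h
      exact hlt.ne (Ideal.comap_injective_of_surjective _ Ideal.Quotient.mk_surjective h)
    have h3 := Ideal.height_add_one_le_of_lt_of_isPrime hlt'
    calc P.height + ((n + 1 : ℕ) : ℕ∞)
        = (P.height + n) + 1 := by push_cast; ring
      _ ≤ (P'.comap (Ideal.Quotient.mk P)).height + 1 := by gcongr
      _ ≤ _ := h3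

end

theorem stratum {R : Type u} [CommRing R] [IsRegularRing R] (P : Ideal R) [P.IsPrime] (c : R)
    (hc : algebraMap R (Localization.AtPrime P) c ≠ 0) (g : R ⧸ P) (hg : g ≠ 0)
    (hreg : ∀ (𝔮 : Ideal (R ⧸ P)) [𝔮.IsPrime], g ∉ 𝔮 →
      IsRegularLocalRing (Localization.AtPrime 𝔮)) :
    ∃ f, f ∉ P ∧ ∃ n : ℕ, ∀ (𝔮 : Ideal (R ⧸ P)) [𝔮.IsPrime], Ideal.Quotient.mk P f ∉ 𝔮 →
      ∀ q : ℕ, n < q → ∀ (φ : R →+* R), (∀ a, φ a = a ^ q) →
        c ∉ (𝔮.comap (Ideal.Quotient.mk P)).map φ := by
  classical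
  obtain ⟨h, x, hxP, hht, hx⟩ := exists_gens P
  obtain ⟨f1, hf1, hf1'⟩ := exists_common_mul P (Ideal.span (Set.range x)) P
    (Ideal.fg_of_isNoetherianRing P) (fun y hy => mem_of_map_mem P _ y (by
      rw [hx, ← Localization.AtPrime.map_eq_maximalIdeal]
      exact Ideal.mem_map_of_mem _ hy))
  -- the order of `c` at `P`
  obtain ⟨n, hn1, hn2⟩ : ∃ n : ℕ, algebraMap R (Localization.AtPrime P) c ∈
      maximalIdeal (Localization.AtPrime P) ^ n ∧ algebraMap R (Localization.AtPrime P) c ∉
      maximalIdeal (Localization.AtPrime P) ^ (n + 1) := by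
    have h1 : ∃ m, algebraMap R (Localization.AtPrime P) c ∉
        maximalIdeal (Localization.AtPrime P) ^ m := by
      by_contra hcon
      push Not at hcon
      have h2 := Ideal.iInf_pow_eq_bot_of_isLocalRing (maximalIdeal (Localization.AtPrime P))
        (maximalIdeal.isMaximal _).ne_top
      apply hc
      rw [← Ideal.mem_bot, ← h2, Ideal.mem_iInf]
      exact hcon
    have h2 := Nat.find_spec h1
    have h3 : Nat.find h1 ≠ 0 := by
      intro h0
      rw [h0] at h2
      simp at h2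
    refine ⟨Nat.find h1 - 1, ?_, ?_⟩
    · have h4 := Nat.find_min h1 (m := Nat.find h1 - 1) (by omega)
      exact not_not.1 h4
    · have h5 : Nat.find h1 - 1 + 1 = Nat.find h1 := by omega
      rw [h5]
      exact h2
  obtain ⟨f2, hf2, hf2'⟩ := mem_of_map_mem P (Ideal.span (Set.range x) ^ n) c (by
    rw [Ideal.map_pow, hx]; exact hn1)
  obtain ⟨F, hF, hFc⟩ := (Ideal.mem_span_pow_iff_exists_isHomogeneous x _).1 hf2'
  obtain ⟨α, hα⟩ : ∃ α, F.coeff α ∉ P := by
    by_contra hcon
    push Not at hcon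
    apply hn2
    have h1 : f2 * c ∈ P ^ (n + 1) := by
      rw [← hFc, MvPolynomial.eval_eq']
      apply Ideal.sum_mem
      intro β hβ
      rw [pow_succ']
      apply Ideal.mul_mem_mul (hcon β)
      have hdeg := hF (MvPolynomial.mem_support_iff.1 hβ)
      rw [Finsupp.weight_apply, Finsupp.sum_fintype _ _ (by simp)] at hdeg
      have hdeg' : ∑ i, β i = n := by simpa using hdeg
      rw [← hdeg', ← Finset.prod_pow_eq_pow_sum]
      apply Ideal.prod_mem_prod
      intro i _
      exact Ideal.pow_mem_pow (hxP i) _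
    have h2 : algebraMap R (Localization.AtPrime P) (f2 * c) ∈
        maximalIdeal (Localization.AtPrime P) ^ (n + 1) := by
      rw [← Localization.AtPrime.map_eq_maximalIdeal, ← Ideal.map_pow]
      exact Ideal.mem_map_of_mem _ h1
    rw [map_mul] at h2
    exact (Ideal.unit_mul_mem_iff_mem _
      (IsLocalization.map_units (Localization.AtPrime P) (⟨f2, hf2⟩ : P.primeCompl))).1 h2
  obtain ⟨g', rfl⟩ := Ideal.Quotient.mk_surjective g
  have hg' : g' ∉ P := fun h => hg (Ideal.Quotient.eq_zero_iff_mem.2 h)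
  refine ⟨f1 * g' * F.coeff α, ?_, n, ?_⟩
  · intro hmem
    rcases Ideal.IsPrime.mem_or_mem inferInstance hmem with h1 | h1
    · rcases Ideal.IsPrime.mem_or_mem inferInstance h1 with h2 | h2
      · exact hf1 h2
      · exact hg' h2
    · exact hα h1
  intro 𝔮 _ hf q hq φ hφ hmem
  rw [map_mul, map_mul] at hf
  have hf1q : Ideal.Quotient.mk P f1 ∉ 𝔮 := fun h =>
    hf (𝔮.mul_mem_right _ (𝔮.mul_mem_right _ h))
  have hgq : Ideal.Quotient.mk P g' ∉ 𝔮 := fun h =>
    hf (𝔮.mul_mem_right _ (𝔮.mul_mem_left _ h))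
  have hαq : Ideal.Quotient.mk P (F.coeff α) ∉ 𝔮 := fun h => hf (𝔮.mul_mem_left _ h)
  have hreg𝔮 := hreg 𝔮 hgq
  obtain ⟨r, y', hy'P, hhty, hy'⟩ := exists_gens 𝔮
  choose y hy using fun j => Ideal.Quotient.mk_surjective (y' j)
  set Q := 𝔮.comap (Ideal.Quotient.mk P) with hQ
  have hPQ : P ≤ Q := by
    intro w hw
    rw [hQ, Ideal.mem_comap, Ideal.Quotient.eq_zero_iff_mem.2 hw]
    exact 𝔮.zero_mem
  let t : Fin h ⊕ Fin r → R := Sum.elim x y
  have htQ : ∀ i, t i ∈ Q := by
    rintro (i | j)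
    · exact hPQ (hxP i)
    · simp only [t, Sum.elim_inr, hQ, Ideal.mem_comap, hy]
      exact hy'P j
  have hgen : ∀ w ∈ Q, ∃ s, s ∉ Q ∧ s * w ∈ Ideal.span (Set.range t) := by
    intro w hw
    have h1 : Ideal.Quotient.mk P w ∈ 𝔮 := hw
    obtain ⟨c', hc', hcw⟩ := mem_of_map_mem 𝔮 (Ideal.span (Set.range y'))
      (Ideal.Quotient.mk P w) (by
        rw [hy', ← Localization.AtPrime.map_eq_maximalIdeal]
        exact Ideal.mem_map_of_mem _ h1)
    obtain ⟨c'', rfl⟩ := Ideal.Quotient.mk_surjective c'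
    have h2 : Ideal.span (Set.range y') =
        (Ideal.span (Set.range y)).map (Ideal.Quotient.mk P) := by
      rw [Ideal.map_span, ← Set.range_comp]
      congr 2
      funext j
      exact (hy j).symm
    rw [h2, ← map_mul, ← Ideal.mem_comap,
      Ideal.comap_map_of_surjective _ Ideal.Quotient.mk_surjective,
      ← RingHom.ker_eq_comap_bot, Ideal.mk_ker] at hcw
    obtain ⟨u, hu, v, hv, huv⟩ := Submodule.mem_sup.1 hcw
    refine ⟨f1 * c'', ?_, ?_⟩
    · intro h3
      rw [hQ, Ideal.mem_comap, map_mul] at h3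
      rcases Ideal.IsPrime.mem_or_mem inferInstance h3 with h4 | h4
      · exact hf1q h4
      · exact hc' h4
    · have h3 : f1 * c'' * w = f1 * u + f1 * v := by
        rw [← mul_add, huv]; ring
      rw [h3]
      apply Ideal.add_mem
      · apply Ideal.mul_mem_left
        refine Ideal.span_mono ?_ hu
        rintro _ ⟨j, rfl⟩
        exact ⟨Sum.inr j, rfl⟩
      · refine Ideal.span_mono ?_ (hf1' v hv)
        rintro _ ⟨i, rfl⟩
        exact ⟨Sum.inl i, rfl⟩
  set ψ := algebraMap R (Localization.AtPrime Q) with hψ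
  have hregQ : IsRegularLocalRing (Localization.AtPrime Q) := inferInstance
  have hunit : ∀ s, s ∉ Q → IsUnit (ψ s) := fun s hs =>
    IsLocalization.map_units (Localization.AtPrime Q) (⟨s, hs⟩ : Q.primeCompl)
  have hz : IsParam (fun i => ψ (t i)) := by
    have hspan : Ideal.span (Set.range fun i => ψ (t i)) =
        maximalIdeal (Localization.AtPrime Q) := by
      apply le_antisymm
      · rw [Ideal.span_le, ← Localization.AtPrime.map_eq_maximalIdeal]
        rintro _ ⟨i, rfl⟩
        exact Ideal.mem_map_of_mem _ (htQ i)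
      · rw [← Localization.AtPrime.map_eq_maximalIdeal, Ideal.map_le_iff_le_comap]
        intro w hw
        obtain ⟨s, hs, hsw⟩ := hgen w hw
        have h1 := Ideal.mem_map_of_mem ψ hsw
        rw [Ideal.map_span, ← Set.range_comp, map_mul] at h1
        exact (Ideal.unit_mul_mem_iff_mem _ (hunit s hs)).1 h1
    refine ⟨hspan, ?_⟩
    rw [IsLocalization.AtPrime.ringKrullDim_eq_height Q (Localization.AtPrime Q)]
    have hcard : Fintype.card (Fin h ⊕ Fin r) = h + r := by simp
    rw [hcard]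
    apply le_antisymm
    · have h1 := ringKrullDim_le_spanFinrank_maximalIdeal (Localization.AtPrime Q)
      rw [IsLocalization.AtPrime.ringKrullDim_eq_height Q (Localization.AtPrime Q)] at h1
      refine h1.trans ?_
      have h2 : (maximalIdeal (Localization.AtPrime Q)).spanFinrank ≤ h + r := by
        rw [← hspan]
        refine (Submodule.spanFinrank_span_le_ncard_of_finite (Set.finite_range _)).trans ?_
        have h3 := Set.ncard_image_le (f := fun i => ψ (t i)) (s := Set.univ) Set.finite_univ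
        rw [Set.image_univ, Set.ncard_univ, Nat.card_eq_fintype_card, hcard] at h3
        exact h3
      exact_mod_cast h2
    · have h1 := height_add_le P r 𝔮 (by rw [hhty])
      rw [hht] at h1
      exact_mod_cast h1
  -- the contradiction
  have h1 : ψ c ∈ Ideal.span (Set.range fun i => ψ (t i) ^ q) := by
    have h2 : Q.map φ ≤ (Ideal.span (Set.range fun i => ψ (t i) ^ q)).comap ψ := by
      rw [Ideal.map_le_iff_le_comap]
      intro w hw
      obtain ⟨s, hs, hsw⟩ := hgen w hw
      have h3 := Ideal.mem_map_of_mem φ hsw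
      rw [Ideal.map_span, ← Set.range_comp] at h3
      have h4 := Ideal.mem_map_of_mem ψ h3
      rw [Ideal.map_span, ← Set.range_comp, map_mul, map_mul] at h4
      have h5 : (ψ ∘ φ ∘ t) = fun i => ψ (t i) ^ q := by
        funext i
        simp only [Function.comp_apply, hφ, map_pow]
      rw [h5] at h4
      rw [Ideal.mem_comap, Ideal.mem_comap]
      refine (Ideal.unit_mul_mem_iff_mem _ ?_).1 h4
      rw [hφ, map_pow]
      exact (hunit s hs).pow q
    exact h2 hmem
  have h2 : MvPolynomial.eval (fun i => ψ (t i))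
      (MvPolynomial.rename Sum.inl (MvPolynomial.map ψ F)) = ψ (f2 * c) := by
    rw [MvPolynomial.eval_rename, ← hFc]
    have : ((fun i => ψ (t i)) ∘ Sum.inl : Fin h → Localization.AtPrime Q) = fun i => ψ (x i) := by
      funext i
      rfl
    rw [this, MvPolynomial.eval_map]
    exact (MvPolynomial.eval₂_comp ψ x F).symm
  refine hom_not_mem q (fun i => ψ (t i)) hz
    (MvPolynomial.rename Sum.inl (MvPolynomial.map ψ F)) n ?_ (α.mapDomain Sum.inl) ?_ hq ?_
  · exact (hF.map ψ).rename_isHomogeneous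
  · rw [MvPolynomial.coeff_rename_mapDomain _ Sum.inl_injective, MvPolynomial.coeff_map]
    intro h3
    rw [← Localization.AtPrime.map_eq_maximalIdeal] at h3
    obtain ⟨c', hc', hcc⟩ := mem_of_map_mem Q Q _ h3
    rcases Ideal.IsPrime.mem_or_mem inferInstance hcc with h4 | h4
    · exact hc' h4
    · exact hαq h4
  · rw [h2, map_mul]
    exact Ideal.mul_mem_left _ _ h1

end Pool.Agent.U197.FPure
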