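import Pool.Agent.U197.FPure.Rel

/-! From the truncated relation property to the full one by Artin-Rees and Krull. -/

set_option autoImplicit false

namespace Pool.Agent.U197.FPure

universe u v

open IsLocalRing

variable {A : Type u} {B : Type v} [CommRing A] [CommRing B] (φ : A →+* B)

/-- The `B`-span of the images of the relations among the `a i`. -/
def relSpan {ι : Type} [Fintype ι] (a : ι → A) : Submodule B (ι → B) :=
  Submodule.span B {f | ∃ c : ι → A, ∑ i, a i * c i = 0 ∧ f = fun i => φ (c i)}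

/-- Membership in the span gives explicit coefficients. -/
theorem exists_of_mem_relSpan {ι : Type} [Fintype ι] (a : ι → A) (b : ι → B)
    (hb : b ∈ relSpan φ a) : ∃ (κ : Type) (_ : Fintype κ) (c : κ → ι → A) (y : κ → B),
      (∀ k, ∑ i, a i * c k i = 0) ∧ ∀ i, b i = ∑ k, φ (c k i) * y k := by
  refine Submodule.span_induction (p := fun b _ => ∃ (κ : Type) (_ : Fintype κ)
    (c : κ → ι → A) (y : κ → B),
      (∀ k, ∑ i, a i * c k i = 0) ∧ ∀ i, b i = ∑ k, φ (c k i) * y k) ?_ ?_ ?_ ?_ hb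
  · rintro _ ⟨c, hc, rfl⟩
    refine ⟨Unit, inferInstance, fun _ => c, fun _ => 1, fun _ => hc, ?_⟩
    intro i
    simp
  · refine ⟨PEmpty, inferInstance, fun k => k.elim, fun k => k.elim, fun k => k.elim, ?_⟩
    intro i
    simp
  · rintro f g _ _ ⟨κ, hκ, c, y, hc, hy⟩ ⟨κ', hκ', c', y', hc', hy'⟩
    refine ⟨κ ⊕ κ', inferInstance, Sum.elim c c', Sum.elim y y', ?_, ?_⟩
    · rintro (k | k)
      · exact hc k
      · exact hc' k
    · intro i
      rw [Fintype.sum_sum_type]
      simp only [Sum.elim_inl, Sum.elim_inr, Pi.add_apply]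
      rw [hy, hy']
  · rintro r f _ ⟨κ, hκ, c, y, hc, hy⟩
    refine ⟨κ, hκ, c, fun k => r * y k, hc, ?_⟩
    intro i
    rw [Pi.smul_apply, smul_eq_mul, hy, Finset.mul_sum]
    exact Finset.sum_congr rfl fun k _ => by ring

theorem sum_mem_relSpan {ι κ : Type} [Fintype ι] [Fintype κ] (a : ι → A) (c : κ → ι → A)
    (y : κ → B) (hc : ∀ k, ∑ i, a i * c k i = 0) :
    (fun i => ∑ k, φ (c k i) * y k) ∈ relSpan φ a := by
  have h : (fun i => ∑ k, φ (c k i) * y k) = ∑ k, y k • (fun i => φ (c k i)) := by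
    funext i
    rw [Finset.sum_apply]
    exact Finset.sum_congr rfl fun k _ => by simp [mul_comm]
  rw [h]
  exact Submodule.sum_mem _ fun k _ =>
    Submodule.smul_mem _ _ (Submodule.subset_span ⟨c k, hc k, rfl⟩)

theorem Fl.of_relSpan
    (h : ∀ (ι : Type) [Fintype ι] (a : ι → A) (b : ι → B), ∑ i, φ (a i) * b i = 0 →
      b ∈ relSpan φ a) : Fl φ ⊥ ⊥ := by
  intro ι _ a b hab
  obtain ⟨κ, hκ, c, y, hc, hy⟩ := exists_of_mem_relSpan φ a b (h ι a b (by simpa using hab))
  refine ⟨κ, hκ, c, y, fun k => by simpa using hc k, fun i => ?_⟩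
  rw [hy i, sub_self]
  exact Ideal.zero_mem _

theorem Fl.relSpan_of (h : Fl φ ⊥ ⊥) {ι : Type} [Fintype ι] (a : ι → A) (b : ι → B)
    (hab : ∑ i, φ (a i) * b i = 0) : b ∈ relSpan φ a := by
  obtain ⟨κ, hκ, c, y, hc, hy⟩ := h ι a b (by simpa using hab)
  have h1 : b = fun i => ∑ k, φ (c k i) * y k := by
    funext i
    exact sub_eq_zero.1 (by simpa using hy i)
  rw [h1]
  exact sum_mem_relSpan φ a c y fun k => by simpa using hc k

theorem Fl.of_pow [IsNoetherianRing A] [IsNoetherianRing B] [IsLocalRing B] {x : A}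
    (hx : φ x ∈ maximalIdeal B)
    (h : ∀ n : ℕ, Fl φ (Ideal.span {x ^ n}) (Ideal.span {φ x ^ n})) : Fl φ ⊥ ⊥ := by
  apply Fl.of_relSpan
  intro ι _ a b hab
  set N := relSpan φ a with hN
  have hkrull : (⨅ n : ℕ, (Ideal.span {φ x}) ^ n • ⊤ : Submodule B ((ι → B) ⧸ N)) = ⊥ := by
    apply Ideal.iInf_pow_smul_eq_bot_of_isLocalRing
    intro ht
    have h1 : Ideal.span {φ x} ≤ maximalIdeal B := by
      rw [Ideal.span_singleton_le_iff_mem]; exact hx
    rw [ht] at h1
    exact (maximalIdeal.isMaximal B).ne_top (top_le_iff.1 h1)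
  suffices hmem : (N.mkQ b) ∈ (⨅ n : ℕ, (Ideal.span {φ x}) ^ n • ⊤ :
      Submodule B ((ι → B) ⧸ N)) by
    rw [hkrull, Submodule.mem_bot] at hmem
    exact (Submodule.Quotient.mk_eq_zero N).1 hmem
  rw [Submodule.mem_iInf]
  intro n
  obtain ⟨k, hk⟩ := Ideal.exists_pow_inf_eq_pow_smul (Ideal.span {x})
    (Ideal.span (Set.range a) : Submodule A A)
  have hk' : ∀ u ∈ Ideal.span {x ^ (n + k)}, u ∈ Ideal.span (Set.range a) →
      ∃ d : ι → A, u = x ^ n * ∑ i, a i * d i := by
    intro u hu1 hu2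
    have h1 := hk (n + k) (by omega)
    have h2 : u ∈ ((Ideal.span {x}) ^ (n + k) • (⊤ : Submodule A A)) ⊓
        (Ideal.span (Set.range a) : Submodule A A) := by
      refine ⟨?_, hu2⟩
      rw [Ideal.span_singleton_pow]
      simpa using hu1
    rw [h1, Nat.add_sub_cancel, Ideal.span_singleton_pow] at h2
    rw [Submodule.ideal_span_singleton_smul] at h2
    obtain ⟨w, hw, hwu⟩ := Submodule.mem_smul_pointwise_iff_exists _ _ _ |>.1 h2
    have hw2 : w ∈ Ideal.span (Set.range a) := hw.2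
    obtain ⟨d, hd⟩ := Ideal.mem_span_range_iff_exists_fun.1 hw2
    refine ⟨d, ?_⟩
    rw [← hwu, ← hd, smul_eq_mul]
    congr 1
    exact Finset.sum_congr rfl fun i _ => mul_comm _ _
  obtain ⟨κ, hκ, c, y, hc, hy⟩ := h (n + k) ι a b (by rw [hab]; exact Ideal.zero_mem _)
  choose v hv using fun i => Ideal.mem_span_singleton'.1 (hy i)
  choose d hd using fun l => hk' _ (hc l) (Ideal.sum_mem _ fun i _ =>
    Ideal.mul_mem_right _ _ (Ideal.subset_span ⟨i, rfl⟩))
  have h1 : b = (fun i => ∑ l, φ (c l i - x ^ n * d l i) * y l) +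
      (φ x ^ n) • (fun i => ∑ l, φ (d l i) * y l + v i * φ x ^ k) := by
    funext i
    have h2 := hv i
    have h3 : b i = ∑ l, φ (c l i) * y l + v i * φ x ^ (n + k) := by rw [h2]; ring
    rw [Pi.add_apply, Pi.smul_apply, smul_eq_mul, h3, mul_add, Finset.mul_sum]
    have h4 : ∀ l, φ (c l i) * y l = φ (c l i - x ^ n * d l i) * y l +
        φ x ^ n * (φ (d l i) * y l) := by
      intro l
      rw [map_sub, map_mul, map_pow]; ring
    rw [Finset.sum_congr rfl (fun l _ => h4 l), Finset.sum_add_distrib]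
    ring
  have h2 : (fun i => ∑ l, φ (c l i - x ^ n * d l i) * y l) ∈ N := by
    apply sum_mem_relSpan
    intro l
    simp only [mul_sub, Finset.sum_sub_distrib]
    rw [hd l, Finset.mul_sum, sub_eq_zero]
    exact Finset.sum_congr rfl fun i _ => by ring
  have h3 : N.mkQ b = (φ x ^ n) • N.mkQ (fun i => ∑ l, φ (d l i) * y l + v i * φ x ^ k) := by
    conv_lhs => rw [h1]
    rw [map_add, map_smul]
    have : N.mkQ (fun i => ∑ l, φ (c l i - x ^ n * d l i) * y l) = 0 :=
      (Submodule.Quotient.mk_eq_zero N).2 h2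
    rw [this, zero_add]
  rw [h3]
  exact Submodule.smul_mem_smul (Ideal.pow_mem_pow (Ideal.mem_span_singleton_self _) n)
    Submodule.mem_top

end Pool.Agent.U197.FPure
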